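import Pool.Agent.H73.LPC.Stmts
import Pool.Agent.H79.TC.Osg

set_option autoImplicit false

open Set Filter Topology MeasureTheory Metric

namespace Pool.LPC

open Pool.PHS

/-- differentiation under the integral -/
theorem hex_param {E : Type} [NormedAddCommGroup E] [NormedSpace ℂ E]
    (K : ℂ × ℂ → ℝ → E) (K' : ℂ × ℂ → ℝ → (ℂ × ℂ →L[ℂ] E)) (U : Set (ℂ × ℂ)) (hU : IsOpen U)
    (a b : ℝ)
    (hK : ContinuousOn (Function.uncurry K) (U ×ˢ univ))
    (hK' : ContinuousOn (Function.uncurry K') (U ×ˢ univ))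
    (hd : ∀ p ∈ U, ∀ t, HasFDerivAt (fun q => K q t) (K' p t) p) :
    DifferentiableOn ℂ (fun p => ∫ t in a..b, K p t) U := by
  intro p₀ hp₀
  obtain ⟨r, hr, hrU⟩ := Metric.nhds_basis_closedBall.mem_iff.1 (hU.mem_nhds hp₀)
  have hcomp : IsCompact (closedBall p₀ r ×ˢ uIcc a b) :=
    (isCompact_closedBall p₀ r).prod isCompact_uIcc
  obtain ⟨C, hC⟩ := hcomp.exists_bound_of_continuousOn
    (hK'.mono (Set.prod_mono hrU (subset_univ _)))
  have hc1 : ∀ p ∈ U, Continuous (K p) := by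
    intro p hp
    rw [← continuousOn_univ]
    have h1 : ContinuousOn (fun t : ℝ => (p, t)) univ := by fun_prop
    exact hK.comp h1 (fun t _ => ⟨hp, trivial⟩)
  have hc2 : ∀ p ∈ U, Continuous (K' p) := by
    intro p hp
    rw [← continuousOn_univ]
    have h1 : ContinuousOn (fun t : ℝ => (p, t)) univ := by fun_prop
    exact hK'.comp h1 (fun t _ => ⟨hp, trivial⟩)
  have hs : closedBall p₀ r ∈ 𝓝 p₀ := closedBall_mem_nhds _ hr
  refine (intervalIntegral.hasFDerivAt_integral_of_dominated_of_fderiv_le (𝕜 := ℂ)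
    (bound := fun _ => C) (F' := K') hs ?_ ?_ ?_ ?_ ?_ ?_).differentiableAt.differentiableWithinAt
  · filter_upwards [hU.mem_nhds hp₀] with p hp
    exact (hc1 p hp).aestronglyMeasurable
  · exact (hc1 p₀ hp₀).intervalIntegrable _ _
  · exact (hc2 p₀ hp₀).aestronglyMeasurable
  · refine Eventually.of_forall (fun t ht p hp => ?_)
    exact hC (p, t) ⟨hp, uIoc_subset_uIcc ht⟩
  · exact intervalIntegrable_const
  · exact Eventually.of_forall (fun t _ p hp => hd p (hrU hp) t)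

theorem HEX_thm : HEXStmt := by
  intro n δ F hδ hδ1 hF
  have hopenHF : IsOpen (HF δ) := by
    have h1 : IsOpen {p : ℂ × ℂ | ‖p.1‖ < 1 + δ} := isOpen_lt (by fun_prop) (by fun_prop)
    have h2 : IsOpen {p : ℂ × ℂ | ‖p.2‖ < 1 + δ} := isOpen_lt (by fun_prop) (by fun_prop)
    have h3 : IsOpen {p : ℂ × ℂ | ‖p.2‖ < δ} := isOpen_lt (by fun_prop) (by fun_prop)
    have h4 : IsOpen {p : ℂ × ℂ | 1 - δ < ‖p.1‖} := isOpen_lt (by fun_prop) (by fun_prop)
    exact h1.inter (h2.inter (h3.union h4))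
  have hopenBD : IsOpen (BD (δ / 2)) := by
    have h1 : IsOpen {p : ℂ × ℂ | ‖p.1‖ < 1 + δ / 2} := isOpen_lt (by fun_prop) (by fun_prop)
    have h2 : IsOpen {p : ℂ × ℂ | ‖p.2‖ < 1 + δ / 2} := isOpen_lt (by fun_prop) (by fun_prop)
    exact h1.inter h2
  set R : ℝ := 1 + 3 * δ / 4 with hR
  have hR0 : 0 < R := by positivity
  have hcm : ∀ t : ℝ, ‖circleMap 0 R t‖ = R := by
    intro t
    rw [norm_circleMap_zero, abs_of_pos hR0]
  have hmemF : ∀ p ∈ BD (δ / 2), ∀ t : ℝ, (circleMap 0 R t, p.2) ∈ HF δ := by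
    intro p hp t
    refine ⟨?_, ?_, Or.inr ?_⟩
    · show ‖circleMap 0 R t‖ < 1 + δ
      rw [hcm, hR]; linarith
    · show ‖p.2‖ < 1 + δ
      have := hp.2
      linarith
    · show 1 - δ < ‖circleMap 0 R t‖
      rw [hcm, hR]; linarith
  have hne : ∀ p ∈ BD (δ / 2), ∀ t : ℝ, circleMap 0 R t - p.1 ≠ 0 := by
    intro p hp t h
    have h1 : circleMap 0 R t = p.1 := sub_eq_zero.1 h
    have h2 := hcm t
    rw [h1] at h2
    have h3 := hp.1
    rw [h2, hR] at h3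
    linarith
  have hpw : DifferentiableOn ℂ (fun q => fderiv ℂ F q (0, 1)) (HF δ) :=
    Pool.Agent.H63.TC.osg_fderiv_apply hopenHF hF (0, 1)
  set K : ℂ × ℂ → ℝ → Cn n := fun p t =>
    deriv (circleMap 0 R) t • ((circleMap 0 R t - p.1)⁻¹ • F (circleMap 0 R t, p.2)) with hKdef
  set K' : ℂ × ℂ → ℝ → (ℂ × ℂ →L[ℂ] Cn n) := fun p t =>
    deriv (circleMap 0 R) t •
      (ContinuousLinearMap.smulRightL ℂ (ℂ × ℂ) (Cn n) (ContinuousLinearMap.snd ℂ ℂ ℂ)
          ((circleMap 0 R t - p.1)⁻¹ • fderiv ℂ F (circleMap 0 R t, p.2) (0, 1)) +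
        ContinuousLinearMap.smulRightL ℂ (ℂ × ℂ) (Cn n) (ContinuousLinearMap.fst ℂ ℂ ℂ)
          (((circleMap 0 R t - p.1) ^ 2)⁻¹ • F (circleMap 0 R t, p.2))) with hK'def
  have hccm : Continuous (circleMap 0 R) := continuous_circleMap 0 R
  have hcdm : Continuous (deriv (circleMap 0 R)) := by
    have : deriv (circleMap 0 R) = fun t => circleMap 0 R t * Complex.I := by
      funext t
      exact deriv_circleMap 0 R t
    rw [this]
    fun_prop
  have hmapc : ContinuousOn (fun x : (ℂ × ℂ) × ℝ => (circleMap 0 R x.2, x.1.2))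
      (BD (δ / 2) ×ˢ univ) := by fun_prop
  have hmaps : MapsTo (fun x : (ℂ × ℂ) × ℝ => (circleMap 0 R x.2, x.1.2))
      (BD (δ / 2) ×ˢ univ) (HF δ) := fun x hx => hmemF x.1 hx.1 x.2
  have hFc : ContinuousOn (fun x : (ℂ × ℂ) × ℝ => F (circleMap 0 R x.2, x.1.2))
      (BD (δ / 2) ×ˢ univ) := hF.continuousOn.comp hmapc hmaps
  have hPc : ContinuousOn (fun x : (ℂ × ℂ) × ℝ => fderiv ℂ F (circleMap 0 R x.2, x.1.2) (0, 1))
      (BD (δ / 2) ×ˢ univ) := hpw.continuousOn.comp hmapc hmaps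
  have hsubc : ContinuousOn (fun x : (ℂ × ℂ) × ℝ => circleMap 0 R x.2 - x.1.1)
      (BD (δ / 2) ×ˢ univ) := by fun_prop
  have hinvc : ContinuousOn (fun x : (ℂ × ℂ) × ℝ => (circleMap 0 R x.2 - x.1.1)⁻¹)
      (BD (δ / 2) ×ˢ univ) := hsubc.inv₀ (fun x hx => hne x.1 hx.1 x.2)
  have hinvc2 : ContinuousOn (fun x : (ℂ × ℂ) × ℝ => ((circleMap 0 R x.2 - x.1.1) ^ 2)⁻¹)
      (BD (δ / 2) ×ˢ univ) := (hsubc.pow 2).inv₀ (fun x hx => pow_ne_zero 2 (hne x.1 hx.1 x.2))
  have hdc : ContinuousOn (fun x : (ℂ × ℂ) × ℝ => deriv (circleMap 0 R) x.2)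
      (BD (δ / 2) ×ˢ univ) := (hcdm.comp continuous_snd).continuousOn
  have hKc : ContinuousOn (Function.uncurry K) (BD (δ / 2) ×ˢ univ) :=
    hdc.smul (hinvc.smul hFc)
  have hKc' : ContinuousOn (Function.uncurry K') (BD (δ / 2) ×ˢ univ) := by
    refine hdc.smul (ContinuousOn.add ?_ ?_)
    · exact (ContinuousLinearMap.smulRightL ℂ (ℂ × ℂ) (Cn n)
        (ContinuousLinearMap.snd ℂ ℂ ℂ)).continuous.comp_continuousOn (hinvc.smul hPc)
    · exact (ContinuousLinearMap.smulRightL ℂ (ℂ × ℂ) (Cn n)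
        (ContinuousLinearMap.fst ℂ ℂ ℂ)).continuous.comp_continuousOn (hinvc2.smul hFc)
  have hKd : ∀ p ∈ BD (δ / 2), ∀ t, HasFDerivAt (fun q => K q t) (K' p t) p := by
    intro p hp t
    set c : ℂ := circleMap 0 R t with hc
    have h1 : HasFDerivAt F (fderiv ℂ F (c, p.2)) (c, p.2) :=
      (hF.differentiableAt (hopenHF.mem_nhds (hmemF p hp t))).hasFDerivAt
    have h2 : HasFDerivAt (fun q : ℂ × ℂ => (c, q.2))
        ((0 : ℂ × ℂ →L[ℂ] ℂ).prod (ContinuousLinearMap.snd ℂ ℂ ℂ)) p :=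
      (hasFDerivAt_const c p).prodMk hasFDerivAt_snd
    have h3 : HasFDerivAt (fun q : ℂ × ℂ => F (c, q.2))
        ((fderiv ℂ F (c, p.2)).comp ((0 : ℂ × ℂ →L[ℂ] ℂ).prod (ContinuousLinearMap.snd ℂ ℂ ℂ))) p :=
      HasFDerivAt.comp (g := F) (f := fun q : ℂ × ℂ => (c, q.2)) p h1 h2
    have h4 : HasDerivAt (fun z : ℂ => (c - z)⁻¹) (((c - p.1) ^ 2)⁻¹) p.1 := by
      have h5 : HasDerivAt (fun z : ℂ => c - z) (-1) p.1 := by
        simpa using (hasDerivAt_id p.1).const_sub c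
      have h6 := h5.inv (hne p hp t)
      have h7 : ((c - p.1) ^ 2)⁻¹ = -(-1) / (c - p.1) ^ 2 := by rw [neg_neg, one_div]
      rw [h7]
      exact h6
    have h5 : HasFDerivAt (fun q : ℂ × ℂ => (c - q.1)⁻¹)
        (((c - p.1) ^ 2)⁻¹ • ContinuousLinearMap.fst ℂ ℂ ℂ) p :=
      h4.comp_hasFDerivAt p hasFDerivAt_fst
    have h6 := (h5.fun_smul h3).const_smul (deriv (circleMap 0 R) t)
    refine HasFDerivAt.congr_fderiv h6 ?_
    have hz0 : fderiv ℂ F (circleMap 0 R t, p.2) ((0 : ℂ), (0 : ℂ)) = 0 := map_zero _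
    ext v
    · simp [K', ContinuousLinearMap.smulRightL, hc, hz0]
    · simp [K', ContinuousLinearMap.smulRightL, hc]
  have hG := hex_param K K' (BD (δ / 2)) hopenBD 0 (2 * Real.pi) hKc hKc' hKd
  set G : ℂ × ℂ → Cn n := fun p => (2 * Real.pi * Complex.I : ℂ)⁻¹ •
    ∫ t in (0 : ℝ)..(2 * Real.pi), K p t with hGdef
  have hGd : DifferentiableOn ℂ G (BD (δ / 2)) :=
    hG.const_smul ((2 * Real.pi * Complex.I : ℂ)⁻¹)
  have h2pi : (2 * Real.pi * Complex.I : ℂ) ≠ 0 := Complex.two_pi_I_ne_zero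
  have hlow : ∀ z w : ℂ, ‖z‖ < 1 + δ / 2 → ‖w‖ < δ → G (z, w) = F (z, w) := by
    intro z w hz hw
    have h1 : DifferentiableOn ℂ (fun ζ : ℂ => F (ζ, w)) (closedBall 0 R) := by
      intro ζ hζ
      rw [mem_closedBall, dist_zero_right] at hζ
      have h2 : (ζ, w) ∈ HF δ := by
        refine ⟨?_, ?_, Or.inl hw⟩
        · show ‖ζ‖ < 1 + δ
          rw [hR] at hζ; linarith
        · show ‖w‖ < 1 + δ
          linarith
      have h3 : DifferentiableAt ℂ F (ζ, w) := hF.differentiableAt (hopenHF.mem_nhds h2)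
      have h4 : DifferentiableAt ℂ (fun ζ : ℂ => (ζ, w)) ζ := by fun_prop
      exact (DifferentiableAt.comp (g := F) (f := fun ζ : ℂ => (ζ, w)) ζ h3
        h4).differentiableWithinAt
    have h5 : z ∈ ball (0 : ℂ) R := by
      rw [mem_ball, dist_zero_right, hR]; linarith
    have h6 := h1.circleIntegral_sub_inv_smul h5
    rw [circleIntegral] at h6
    show (2 * Real.pi * Complex.I : ℂ)⁻¹ • ∫ t in (0 : ℝ)..(2 * Real.pi), K (z, w) t = F (z, w)
    have h7 : (∫ t in (0 : ℝ)..(2 * Real.pi), K (z, w) t) = (2 * Real.pi * Complex.I : ℂ) • F (z, w) :=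
      h6
    rw [h7, smul_smul, inv_mul_cancel₀ h2pi, one_smul]
  refine ⟨G, hGd, ?_⟩
  rintro ⟨z, w⟩ ⟨hz, hw, hzw⟩
  simp only at hz hw hzw
  rcases hzw with hlt | hgt
  · exact hlow z w hz (by linarith)
  · have hU : IsOpen (ball (0 : ℂ) (1 + δ / 2)) := isOpen_ball
    have hA : DifferentiableOn ℂ (fun w : ℂ => G (z, w)) (ball 0 (1 + δ / 2)) := by
      intro ω hω
      rw [mem_ball, dist_zero_right] at hω
      have h2 : (z, ω) ∈ BD (δ / 2) := ⟨hz, hω⟩
      have h3 : DifferentiableAt ℂ G (z, ω) := hGd.differentiableAt (hopenBD.mem_nhds h2)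
      have h4 : DifferentiableAt ℂ (fun ω : ℂ => (z, ω)) ω := by fun_prop
      exact (DifferentiableAt.comp (g := G) (f := fun ω : ℂ => (z, ω)) ω h3
        h4).differentiableWithinAt
    have hB : DifferentiableOn ℂ (fun w : ℂ => F (z, w)) (ball 0 (1 + δ / 2)) := by
      intro ω hω
      rw [mem_ball, dist_zero_right] at hω
      have h2 : (z, ω) ∈ HF δ := by
        refine ⟨?_, ?_, Or.inr ?_⟩
        · show ‖z‖ < 1 + δ
          linarith
        · show ‖ω‖ < 1 + δ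
          linarith
        · show 1 - δ < ‖z‖
          linarith
      have h3 : DifferentiableAt ℂ F (z, ω) := hF.differentiableAt (hopenHF.mem_nhds h2)
      have h4 : DifferentiableAt ℂ (fun ω : ℂ => (z, ω)) ω := by fun_prop
      exact (DifferentiableAt.comp (g := F) (f := fun ω : ℂ => (z, ω)) ω h3
        h4).differentiableWithinAt
    have hpre : IsPreconnected (ball (0 : ℂ) (1 + δ / 2)) := (convex_ball _ _).isPreconnected
    have h0 : (0 : ℂ) ∈ ball (0 : ℂ) (1 + δ / 2) := mem_ball_self (by positivity)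
    have hev : (fun w : ℂ => G (z, w)) =ᶠ[𝓝 0] fun w : ℂ => F (z, w) := by
      filter_upwards [ball_mem_nhds (0 : ℂ) hδ] with ω hω
      rw [mem_ball, dist_zero_right] at hω
      exact hlow z ω hz hω
    have h1 := (hA.analyticOnNhd hU).eqOn_of_preconnected_of_eventuallyEq (hB.analyticOnNhd hU)
      hpre h0 hev
    exact h1 (by rw [mem_ball, dist_zero_right]; exact hw)

end Pool.LPC
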